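import Mathlib
import Pool.Agent.H.MP_9ec287_co.RegStep.Final

/-!
# `K(2,2,t)` with `t ≥ c n` for every `c < 1/16` one edge above `qbar n`

`Q n`, `qbar n` and `K22 t` are defined in `Pool/Agent/H/MP_9ec287_co/NearBip/Defs.lean`.
-/

namespace Pool.Agent.Results.MP_9ec287_co.SixteenthAboveQbar

open Pool.Agent.H.MP_9ec287_co.NearBip

/-- `qbar n` really is the maximum number of edges of a graph in `Q n`. -/
theorem isGreatest_qbar (n : ℕ) :
    IsGreatest ((fun G : SimpleGraph (Fin n) => G.edgeSet.ncard) '' Q n) (qbar n) := by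
  have hfin : ((fun G : SimpleGraph (Fin n) => G.edgeSet.ncard) '' Q n).Finite := Set.toFinite _
  have hne : ((fun G : SimpleGraph (Fin n) => G.edgeSet.ncard) '' Q n).Nonempty := by
    refine Set.Nonempty.image _ ⟨⊥, ∅, ?_, ?_, ?_⟩
    · intro x hx; exact absurd hx (Set.notMem_empty x)
    · rintro ⟨f⟩
      exact (f 0).2
    · rintro ⟨f⟩
      have := f.toHom.map_rel (show (SimpleGraph.cycleGraph 4).Adj 0 1 by decide)
      simp at this
  exact ⟨Nat.sSup_mem hne hfin.bddAbove, fun m hm => le_csSup hfin.bddAbove hm⟩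

/-- For every constant `c < 1/16` and all sufficiently large `n`, every graph with `n` vertices and
`qbar n + 1` edges contains `K(2,2,t)` for some `t ≥ c n`. -/
theorem result : ∀ c : ℝ, c < 1/16 → ∃ N : ℕ, ∀ n : ℕ, N ≤ n → ∀ G : SimpleGraph (Fin n),
    G.edgeSet.ncard = qbar n + 1 → ∃ t : ℕ, c * n ≤ t ∧ (K22 t).IsContained G :=
  main_Q1

end Pool.Agent.Results.MP_9ec287_co.SixteenthAboveQbar
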